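import Pool.Agent.H19.GrB

/-! A perfect preimage of a Grothendieck space need not be weakly Grothendieck. -/

namespace Pool.Agent.Results.MP_590c78_gt.Both

open Set Pool.Agent.H19.Gr

theorem result : ∃ (X Y : Type) (_ : TopologicalSpace X) (_ : TopologicalSpace Y) (f : X → Y),
    T35Space X ∧ T35Space Y ∧ Continuous f ∧ IsClosedMap f ∧ Function.Surjective f ∧
    (∀ y, IsCompact (f ⁻¹' {y})) ∧ Grothendieck Y ∧ WeaklyGrothendieck Y ∧
    ¬ Grothendieck X ∧ ¬ WeaklyGrothendieck X := by
  haveI := sep_YY
  refine ⟨XX, YY, inferInstance, inferInstance, fun z => z.1.1, inferInstance, inferInstance,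
    by fun_prop, isClosedMap_fst_of_compactSpace.comp closed_XX.isClosedMap_subtype_val,
    fun y => ⟨⟨(y, false), by simp⟩, rfl⟩, fun y => Set.Finite.isCompact ?_, groth_of_sep _,
    wg_of_groth (groth_of_sep _), fun h => not_wg (wg_of_groth h), not_wg⟩
  refine Set.Finite.of_finite_image (f := fun z : XX => z.1.2) (toFinite _) fun z hz w hw h => ?_
  exact Subtype.ext (Prod.ext (hz.trans hw.symm) h)

end Pool.Agent.Results.MP_590c78_gt.Both
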